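import Mathlib
import Pool.Agent.H48.FIrrDefs
import Pool.Agent.H48.FIrrClass
import Pool.Agent.H48.FIrrP3
import Pool.Agent.H48.FIrrSO
import Pool.Agent.H64.FIrrC3

/-!
For every weakly connected oriented graph `F` on at least three vertices there are infinitely many
pairwise non-isomorphic `F`-irregular oriented graphs.
-/

namespace Pool.Agent.Results.MP_5b35db_co.FIrregular

open Pool.Agent.H48.FIrr

theorem k3_main (R : Fin 3 → Fin 3 → Prop) (hR : ∀ a b, R a b → ¬ R b a)
    (hconn : (SimpleGraph.fromRel R).Connected) (m : ℕ) :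
    ∃ n ≥ m, ∃ E : Fin n → Fin n → Prop, (∀ u v, E u v → ¬ E v u) ∧
      Function.Injective (cnt R E) := by
  refine k3_of Pool.Agent.H48.FIrrP3.p3_main ?_ ?_ Pool.Agent.H48.FIrrSO.so_main R hR hconn m
  · have h : (fun a b : Fin 3 => RT a b = true) = (fun a b : Fin 3 => a < b) := by
      funext a b
      simp [RT]
    rw [h]
    exact Pool.Agent.H64.FIrrT3.t3_main
  · have h : (fun a b : Fin 3 => RC a b = true) = (fun a b : Fin 3 => b = a + 1) := by
      funext a b
      simp [RC]
    rw [h]
    exact Pool.Agent.H64.FIrrC3.c3_main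

/-- For every weakly connected oriented graph `F` on at least three vertices there are oriented
graphs `G i` on `n i` vertices, with `n` strictly increasing, which are `F`-irregular and pairwise
non-isomorphic. -/
theorem result {W : Type*} [Finite W] (F : OGraph W) (hF : WeaklyConnected F)
    (hk : 3 ≤ Nat.card W) :
    ∃ (n : ℕ → ℕ) (G : (i : ℕ) → OGraph (Fin (n i))), StrictMono n ∧
      (∀ i, Irregular F (G i)) ∧ ∀ i j, i ≠ j → ¬ Iso (G i) (G j) :=
  final_of_k3 k3_main F hF hk

end Pool.Agent.Results.MP_5b35db_co.FIrregular
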